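import Pool.Agent.K1H44.AL.Plan

set_option autoImplicit false

/-! Project AL, piece T: the odd sums save every power of the logarithm. -/

open Finset Filter Topology

namespace Pool.Agent.K1H64.AL

open Pool.Agent.H295R3.W Pool.Agent.K1H44.AL

theorem fo_eq : fo = g * mu2 := by
  have h2 := @ArithmeticFunction.coe_moebius_mul_coe_zeta ℝ _
  unfold g mu2
  set z : ArithmeticFunction ℝ := ((ArithmeticFunction.zeta : ArithmeticFunction ℕ) : ArithmeticFunction ℝ)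
    with hz
  set m : ArithmeticFunction ℝ :=
    ((ArithmeticFunction.moebius : ArithmeticFunction ℤ) : ArithmeticFunction ℝ) with hm
  calc fo = (m * z) * (m * z) * fo := by rw [h2]; simp
    _ = z * z * fo * (m * m) := by ring

theorem T_eq (u : ℝ) : T u = ∑ m ∈ Ioc 0 ⌊u⌋₊, g m * ∑ n ∈ Icc 1 ⌊u / m⌋₊, mu2 n := by
  have h1 : T u = ∑ n ∈ Ioc 0 ⌊u⌋₊, fo n := by
    unfold T
    rw [Finset.sum_filter]
    rfl
  rw [h1, fo_eq, ArithmeticFunction.sum_Ioc_mul_eq_sum_sum]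
  refine Finset.sum_congr rfl fun m _ => ?_
  rw [Nat.floor_div_natCast]
  rfl

theorem ratio_bound (V : ℕ) : ∃ C : ℝ, 0 < C ∧ ∀ m : ℕ, 1 ≤ m →
    (1 + Real.log m / Real.log 2) ^ V ≤ C * (m : ℝ) ^ (1 / 4 : ℝ) := by
  have hl2 : 0 < Real.log 2 := Real.log_pos (by norm_num)
  set ε : ℝ := 1 / (4 * ((V : ℝ) + 1)) with hε
  have hε0 : 0 < ε := by rw [hε]; positivity
  set c : ℝ := 1 + 1 / (ε * Real.log 2) with hc
  have hc0 : 0 < c := by rw [hc]; positivity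
  refine ⟨c ^ V, by positivity, fun m hm => ?_⟩
  have hm1 : (1 : ℝ) ≤ m := by exact_mod_cast hm
  have hlog : 0 ≤ Real.log m := Real.log_nonneg hm1
  have h1 : Real.log m ≤ (m : ℝ) ^ ε / ε := Real.log_le_rpow_div (by linarith) hε0
  have h2 : (1 : ℝ) ≤ (m : ℝ) ^ ε := Real.one_le_rpow hm1 hε0.le
  have h3 : 1 + Real.log m / Real.log 2 ≤ c * (m : ℝ) ^ ε := by
    have h4 : Real.log m / Real.log 2 ≤ ((m : ℝ) ^ ε / ε) / Real.log 2 :=
      div_le_div_of_nonneg_right h1 hl2.le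
    have h5 : ((m : ℝ) ^ ε / ε) / Real.log 2 = 1 / (ε * Real.log 2) * (m : ℝ) ^ ε := by
      field_simp
    rw [hc]
    nlinarith
  have h6 : (1 + Real.log m / Real.log 2) ^ V ≤ (c * (m : ℝ) ^ ε) ^ V := by
    have : 0 ≤ 1 + Real.log m / Real.log 2 := by positivity
    exact pow_le_pow_left₀ this h3 V
  refine h6.trans ?_
  rw [mul_pow, ← Real.rpow_mul_natCast (by linarith)]
  have h7 : ε * (V : ℝ) ≤ 1 / 4 := by
    rw [hε, div_mul_eq_mul_div, one_mul, div_le_div_iff₀ (by positivity) (by norm_num)]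
    linarith
  have h8 : (m : ℝ) ^ (ε * (V : ℝ)) ≤ (m : ℝ) ^ (1 / 4 : ℝ) :=
    Real.rpow_le_rpow_of_exponent_le hm1 h7
  have h9 : 0 ≤ c ^ V := by positivity
  exact mul_le_mul_of_nonneg_left h8 h9

/-- **Piece T.** -/
theorem t_T : TaskM → TaskG → S_TB := by
  intro hM hG V
  obtain ⟨C0, hC0, hM0⟩ := hM V
  obtain ⟨C1, hC1, hR⟩ := ratio_bound V
  have hK0 : 0 ≤ ∑' n : ℕ, |g n| / (n : ℝ) ^ (3 / 4 : ℝ) := tsum_nonneg fun n => by positivity
  refine ⟨C0 * C1 * ((∑' n : ℕ, |g n| / (n : ℝ) ^ (3 / 4 : ℝ)) + 1), by positivity, ?_⟩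
  intro u hu
  have hu0 : 0 < u := by linarith
  have hl2 : 0 < Real.log 2 := Real.log_pos (by norm_num)
  have hlu : 0 < Real.log (u + 1) := Real.log_pos (by linarith)
  rw [T_eq]
  have hterm : ∀ m ∈ Ioc 0 ⌊u⌋₊, |g m * ∑ n ∈ Icc 1 ⌊u / m⌋₊, mu2 n| ≤
      (|g m| / (m : ℝ) ^ (3 / 4 : ℝ)) * (C0 * C1 * u / Real.log (u + 1) ^ V) := by
    intro m hm
    rw [Finset.mem_Ioc] at hm
    have hm1 : (1 : ℝ) ≤ m := by exact_mod_cast hm.1
    have hm0 : (0 : ℝ) < m := by linarith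
    have hmu : (m : ℝ) ≤ u := (Nat.le_floor_iff hu0.le).1 hm.2
    have hy : 1 ≤ u / m := by rw [le_div_iff₀ hm0]; linarith
    have h1 := hM0 (u / m) hy
    have hly : Real.log 2 ≤ Real.log (u / m + 1) := Real.log_le_log (by norm_num) (by linarith)
    have hly0 : 0 < Real.log (u / m + 1) := by linarith
    have hlm : 0 ≤ Real.log m := Real.log_nonneg hm1
    have h2 : Real.log (u + 1) ≤ (1 + Real.log m / Real.log 2) * Real.log (u / m + 1) := by
      have h3 : Real.log (u + 1) ≤ Real.log m + Real.log (u / m + 1) := by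
        rw [← Real.log_mul (by positivity) (by positivity)]
        refine Real.log_le_log (by linarith) ?_
        have : (m : ℝ) * (u / m + 1) = u + m := by field_simp
        rw [this]; linarith
      have h4 : Real.log m ≤ Real.log m / Real.log 2 * Real.log (u / m + 1) := by
        rw [div_mul_eq_mul_div, le_div_iff₀ hl2]
        exact mul_le_mul_of_nonneg_left hly hlm
      linarith
    have h5 : Real.log (u + 1) ^ V ≤ C1 * (m : ℝ) ^ (1 / 4 : ℝ) * Real.log (u / m + 1) ^ V := by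
      calc Real.log (u + 1) ^ V ≤ ((1 + Real.log m / Real.log 2) * Real.log (u / m + 1)) ^ V :=
            pow_le_pow_left₀ hlu.le h2 V
        _ = (1 + Real.log m / Real.log 2) ^ V * Real.log (u / m + 1) ^ V := mul_pow _ _ _
        _ ≤ _ := mul_le_mul_of_nonneg_right (hR m hm.1) (by positivity)
    have h6 : C0 * (u / m) / Real.log (u / m + 1) ^ V ≤
        (1 / (m : ℝ) ^ (3 / 4 : ℝ)) * (C0 * C1 * u / Real.log (u + 1) ^ V) := by
      have h7 : (m : ℝ) ^ (1 / 4 : ℝ) * (m : ℝ) ^ (3 / 4 : ℝ) = m := by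
        rw [← Real.rpow_add hm0]; norm_num
      have hp4 : 0 < (m : ℝ) ^ (1 / 4 : ℝ) := by positivity
      have hp34 : 0 < (m : ℝ) ^ (3 / 4 : ℝ) := by positivity
      have hLy : 0 < Real.log (u / m + 1) ^ V := by positivity
      have hLu : 0 < Real.log (u + 1) ^ V := by positivity
      rw [div_mul_div_comm, one_mul, mul_div_assoc', div_div, div_le_div_iff₀ (by positivity) (by positivity)]
      have h8 : C0 * u * ((m : ℝ) ^ (3 / 4 : ℝ) * Real.log (u + 1) ^ V) ≤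
          C0 * u * ((m : ℝ) ^ (3 / 4 : ℝ) *
            (C1 * (m : ℝ) ^ (1 / 4 : ℝ) * Real.log (u / m + 1) ^ V)) := by
        gcongr
      refine h8.trans (le_of_eq ?_)
      calc C0 * u * ((m : ℝ) ^ (3 / 4 : ℝ) *
            (C1 * (m : ℝ) ^ (1 / 4 : ℝ) * Real.log (u / m + 1) ^ V))
          = C0 * C1 * u * (((m : ℝ) ^ (1 / 4 : ℝ) * (m : ℝ) ^ (3 / 4 : ℝ)) *
              Real.log (u / m + 1) ^ V) := by ring
        _ = _ := by rw [h7]
    rw [abs_mul]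
    calc |g m| * |∑ n ∈ Icc 1 ⌊u / m⌋₊, mu2 n| ≤
          |g m| * (C0 * (u / m) / Real.log (u / m + 1) ^ V) :=
          mul_le_mul_of_nonneg_left h1 (abs_nonneg _)
      _ ≤ |g m| * ((1 / (m : ℝ) ^ (3 / 4 : ℝ)) * (C0 * C1 * u / Real.log (u + 1) ^ V)) :=
          mul_le_mul_of_nonneg_left h6 (abs_nonneg _)
      _ = _ := by ring
  have hX : 0 ≤ C0 * C1 * u / Real.log (u + 1) ^ V := by positivity
  calc |∑ m ∈ Ioc 0 ⌊u⌋₊, g m * ∑ n ∈ Icc 1 ⌊u / m⌋₊, mu2 n|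
      ≤ ∑ m ∈ Ioc 0 ⌊u⌋₊, |g m * ∑ n ∈ Icc 1 ⌊u / m⌋₊, mu2 n| := Finset.abs_sum_le_sum_abs _ _
    _ ≤ ∑ m ∈ Ioc 0 ⌊u⌋₊, (|g m| / (m : ℝ) ^ (3 / 4 : ℝ)) *
          (C0 * C1 * u / Real.log (u + 1) ^ V) := Finset.sum_le_sum hterm
    _ = (∑ m ∈ Ioc 0 ⌊u⌋₊, (|g m| / (m : ℝ) ^ (3 / 4 : ℝ))) *
          (C0 * C1 * u / Real.log (u + 1) ^ V) := (Finset.sum_mul _ _ _).symm
    _ ≤ ((∑' n : ℕ, |g n| / (n : ℝ) ^ (3 / 4 : ℝ)) + 1) *
          (C0 * C1 * u / Real.log (u + 1) ^ V) := by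
        refine mul_le_mul_of_nonneg_right ?_ hX
        have := Summable.sum_le_tsum (Ioc 0 ⌊u⌋₊) (fun n _ => by positivity) hG
        linarith
    _ = _ := by ring

end Pool.Agent.K1H64.AL
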